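import Pool.Agent.H933.LL.Stm7

/-!
# Logarithms in the Wiener algebra with a power weight

Proof without a partition of unity: truncate the Fourier series of `a` at `N`, `a - z = (p - z) (1 + u)`
with `u = (a - p) / (p - z)`; the Wiener norm of `u ^ k = (a - p) ^ k (p - z) ^ (- k)` is bounded by the
one of `(a - p) ^ k` and the Lipschitz norm of `(p - z) ^ (- k)`; `g - log (1 + u)` is a logarithm of the
Lipschitz function `p - z`.
-/

set_option autoImplicit false

open MeasureTheory Metric AddCircle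
open scoped Real

namespace Pool.Agent.H738.LL

open Pool.Agent.H933.LL

/-! ### the circle -/

theorem exists_lift (x : UnitAddCircle) : ∃ r : ℝ, (r : UnitAddCircle) = x ∧ |r| = ‖x‖ := by
  obtain ⟨y, rfl⟩ := QuotientAddGroup.mk_surjective x
  refine ⟨y - round y, ?_, ?_⟩
  · have h1 : (((round y : ℤ) : ℝ) : UnitAddCircle) = 0 := by
      rw [AddCircle.coe_eq_zero_iff]
      exact ⟨round y, by simp⟩
    rw [AddCircle.coe_sub, h1, sub_zero]
  · have h2 := UnitAddCircle.norm_eq (x := y)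
    exact h2.symm

theorem norm_coe_le (y : ℝ) : ‖(y : UnitAddCircle)‖ ≤ |y| := by
  rw [UnitAddCircle.norm_eq]
  have h := round_le y 0
  simpa using h

theorem norm_le_half (x : UnitAddCircle) : ‖x‖ ≤ 1 / 2 := by
  have h := AddCircle.norm_le_half_period (p := (1 : ℝ)) (x := x) one_ne_zero
  simpa using h

/-- Lipschitz functions on the circle -/
def Lip (F : UnitAddCircle → ℂ) (L : ℝ) : Prop := ∀ s t, ‖F s - F t‖ ≤ L * dist s t

theorem fourier_lip (n : ℤ) (s t : UnitAddCircle) :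
    ‖(fourier n s : ℂ) - fourier n t‖ ≤ 2 * π * |(n : ℝ)| * dist s t := by
  obtain ⟨r, hr, hr'⟩ := exists_lift (s - t)
  have h1 : (fourier n s : ℂ) = fourier n (s - t) * fourier n t := by
    rw [fourier_apply, fourier_apply, fourier_apply, ← Circle.coe_mul, ← toCircle_add, ← smul_add,
      sub_add_cancel]
  have h2 : (fourier n s : ℂ) - fourier n t = (fourier n (s - t) - 1) * fourier n t := by
    rw [h1]
    ring
  have h3 : ‖(fourier n t : ℂ)‖ = 1 := by
    rw [fourier_apply, Circle.norm_coe]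
  rw [h2, norm_mul, h3, mul_one, dist_eq_norm, ← hr', ← hr, fourier_coe_apply]
  have h4 : (2 * (π : ℂ) * Complex.I * n * r / ((1 : ℝ) : ℂ)) =
      Complex.I * ((2 * π * n * r : ℝ) : ℂ) := by
    push_cast
    ring
  rw [h4]
  refine (Real.norm_exp_I_mul_ofReal_sub_one_le).trans (le_of_eq ?_)
  rw [Real.norm_eq_abs, abs_mul, abs_mul, abs_mul, abs_of_pos Real.pi_pos]
  simp

/-! ### powers and inverses -/

theorem pow_sub_le {x y : ℂ} {R : ℝ} (hx : ‖x‖ ≤ R) (hy : ‖y‖ ≤ R) (k : ℕ) :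
    ‖x ^ (k + 1) - y ^ (k + 1)‖ ≤ (k + 1) * R ^ k * ‖x - y‖ := by
  have hR : 0 ≤ R := (norm_nonneg x).trans hx
  induction k with
  | zero => simp
  | succ k ih =>
    have e : x ^ (k + 1 + 1) - y ^ (k + 1 + 1) =
        x * (x ^ (k + 1) - y ^ (k + 1)) + (x - y) * y ^ (k + 1) := by ring
    rw [e]
    refine (norm_add_le _ _).trans ?_
    rw [norm_mul, norm_mul, norm_pow]
    have h1 : ‖x‖ * ‖x ^ (k + 1) - y ^ (k + 1)‖ ≤ R * ((k + 1) * R ^ k * ‖x - y‖) :=
      mul_le_mul hx ih (norm_nonneg _) hR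
    have h2 : ‖x - y‖ * ‖y‖ ^ (k + 1) ≤ ‖x - y‖ * R ^ (k + 1) :=
      mul_le_mul_of_nonneg_left (pow_le_pow_left₀ (norm_nonneg _) hy _) (norm_nonneg _)
    push_cast
    calc ‖x‖ * ‖x ^ (k + 1) - y ^ (k + 1)‖ + ‖x - y‖ * ‖y‖ ^ (k + 1)
        ≤ R * ((k + 1) * R ^ k * ‖x - y‖) + ‖x - y‖ * R ^ (k + 1) := add_le_add h1 h2
      _ = ((k : ℝ) + 1 + 1) * R ^ (k + 1) * ‖x - y‖ := by ring

/-- the inverse -/
noncomputable def inv' (b : C(UnitAddCircle, ℂ)) (hb : ∀ t, b t ≠ 0) : C(UnitAddCircle, ℂ) where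
  toFun t := (b t)⁻¹
  continuous_toFun := b.continuous.inv₀ hb

theorem inv_lip {b : C(UnitAddCircle, ℂ)} (hb : ∀ t, b t ≠ 0) {R L : ℝ}
    (hR : ∀ t, ‖(b t)⁻¹‖ ≤ R) (hL : Lip b L) : Lip (inv' b hb) (R ^ 2 * L) := by
  intro s t
  show ‖(b s)⁻¹ - (b t)⁻¹‖ ≤ _
  have h0 : 0 ≤ R := (norm_nonneg _).trans (hR t)
  have h1 : (b s)⁻¹ - (b t)⁻¹ = (b s)⁻¹ * (b t)⁻¹ * (b t - b s) := by
    have := hb s
    have := hb t
    field_simp
  rw [h1, norm_mul, norm_mul]
  have h2 : ‖(b s)⁻¹‖ * ‖(b t)⁻¹‖ ≤ R ^ 2 := by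
    rw [sq]
    exact mul_le_mul (hR s) (hR t) (norm_nonneg _) h0
  have h3 := hL t s
  rw [dist_comm] at h3
  calc ‖(b s)⁻¹‖ * ‖(b t)⁻¹‖ * ‖b t - b s‖ ≤ R ^ 2 * (L * dist s t) :=
        mul_le_mul h2 h3 (norm_nonneg _) (sq_nonneg R)
    _ = R ^ 2 * L * dist s t := by ring

/-! ### logarithms of Lipschitz functions -/

theorem log_lip {q b : C(UnitAddCircle, ℂ)} (hq : ∀ t, Complex.exp (q t) = b t) {R L : ℝ}
    (hR : ∀ t, ‖(b t)⁻¹‖ ≤ R) (h0L : 0 ≤ L) (hL : Lip b L) : Lip q (3 / 2 * (R * L)) := by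
  have hb : ∀ t, b t ≠ 0 := fun t => by
    rw [← hq t]
    exact Complex.exp_ne_zero _
  have h0 : 0 ≤ R := (norm_nonneg _).trans (hR 0)
  have hRL : 0 ≤ R * L := mul_nonneg h0 h0L
  have huc := CompactSpace.uniformContinuous_of_continuous q.continuous
  rw [Metric.uniformContinuous_iff] at huc
  obtain ⟨η, hη, hη'⟩ := huc 1 one_pos
  set η' : ℝ := min η (1 / (2 * (R * L + 1))) with hη1
  have hη0 : 0 < η' := by
    rw [hη1]
    refine lt_min hη (by positivity)
  -- local bound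
  have hloc : ∀ s t : UnitAddCircle, dist s t < η' → ‖q s - q t‖ ≤ 3 / 2 * (R * L) * dist s t := by
    intro s t hst
    have h1 : dist (q s) (q t) < 1 := hη' (lt_of_lt_of_le hst (min_le_left _ _))
    have h2 : dist s t < 1 / (2 * (R * L + 1)) := lt_of_lt_of_le hst (min_le_right _ _)
    have hw : ‖(b s - b t) * (b t)⁻¹‖ ≤ R * L * dist s t := by
      rw [norm_mul]
      calc ‖b s - b t‖ * ‖(b t)⁻¹‖ ≤ (L * dist s t) * R :=
            mul_le_mul (hL s t) (hR t) (norm_nonneg _) (mul_nonneg h0L dist_nonneg)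
        _ = R * L * dist s t := by ring
    have hw2 : R * L * dist s t ≤ 1 / 2 := by
      have h3 : R * L * dist s t ≤ (R * L + 1) * (1 / (2 * (R * L + 1))) :=
        mul_le_mul (by linarith) h2.le dist_nonneg (by linarith)
      have h4 : (R * L + 1) * (1 / (2 * (R * L + 1))) = 1 / 2 := by
        have : R * L + 1 ≠ 0 := by positivity
        field_simp
      linarith
    have he : Complex.exp (q s - q t) = 1 + (b s - b t) * (b t)⁻¹ := by
      rw [Complex.exp_sub, hq, hq]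
      have := hb t
      field_simp
      ring
    have him : |(q s - q t).im| < 1 := by
      refine lt_of_le_of_lt (Complex.abs_im_le_norm _) ?_
      rw [← dist_eq_norm]
      exact h1
    have hpi := Real.pi_gt_three
    have him' := abs_lt.1 him
    have hlog : Complex.log (1 + (b s - b t) * (b t)⁻¹) = q s - q t := by
      rw [← he]
      exact Complex.log_exp (by linarith) (by linarith)
    rw [← hlog]
    refine (Complex.norm_log_one_add_half_le_self (hw.trans hw2)).trans ?_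
    have := mul_le_mul_of_nonneg_left hw (by norm_num : (0 : ℝ) ≤ 3 / 2)
    linarith
  -- chain
  intro s t
  obtain ⟨r, hr, hr'⟩ := exists_lift (s - t)
  obtain ⟨n, hn⟩ := exists_nat_gt (|r| / η')
  have hn0 : (0 : ℝ) < n := lt_of_le_of_lt (by positivity) hn
  have hn1 : |r| / n < η' := by
    rw [div_lt_iff₀ hn0]
    rw [div_lt_iff₀ hη0] at hn
    linarith
  let x : ℕ → UnitAddCircle := fun i => t + (((i : ℝ) * (r / n) : ℝ) : UnitAddCircle)
  have hx : ∀ i, dist (x i) (x (i + 1)) ≤ |r| / n := by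
    intro i
    have e : x i - x (i + 1) = ((-(r / n) : ℝ) : UnitAddCircle) := by
      show t + (((i : ℝ) * (r / n) : ℝ) : UnitAddCircle) -
        (t + ((((i + 1 : ℕ) : ℝ) * (r / n) : ℝ) : UnitAddCircle)) = _
      rw [add_sub_add_left_eq_sub, ← AddCircle.coe_sub]
      congr 1
      push_cast
      ring
    rw [dist_eq_norm, e]
    refine (norm_coe_le _).trans (le_of_eq ?_)
    rw [abs_neg, abs_div, abs_of_pos hn0]
  have h1 := dist_le_range_sum_dist (fun i => q (x i)) n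
  have h2 : ∑ i ∈ Finset.range n, dist (q (x i)) (q (x (i + 1))) ≤
      ∑ _i ∈ Finset.range n, 3 / 2 * (R * L) * (|r| / n) := by
    refine Finset.sum_le_sum fun i _ => ?_
    rw [dist_eq_norm]
    refine (hloc _ _ (lt_of_le_of_lt (hx i) hn1)).trans ?_
    exact mul_le_mul_of_nonneg_left (hx i) (by positivity)
  rw [Finset.sum_const, Finset.card_range, nsmul_eq_mul] at h2
  have e0 : x 0 = t := by
    show t + (((((0 : ℕ) : ℝ) * (r / n) : ℝ)) : UnitAddCircle) = t
    rw [Nat.cast_zero, zero_mul, AddCircle.coe_zero, add_zero]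
  have en : x n = s := by
    show t + ((((n : ℝ) * (r / n) : ℝ)) : UnitAddCircle) = s
    rw [mul_div_cancel₀ _ hn0.ne', hr]
    abel
  have h3 : (n : ℝ) * (3 / 2 * (R * L) * (|r| / n)) = 3 / 2 * (R * L) * |r| := by
    field_simp
  simp only [e0, en] at h1
  rw [← dist_eq_norm, dist_comm, dist_eq_norm s t, ← hr']
  linarith

/-! ### the Wiener norm -/

theorem wn_mono {F : C(UnitAddCircle, ℂ)} {m m' : ℝ} (h : WN F m) (hm : m ≤ m') : WN F m' :=
  ⟨h.1, h.2.trans hm⟩

theorem wn_zero : WN 0 0 := by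
  have h : ∀ n : ℤ, fourierCoeff (⇑(0 : C(UnitAddCircle, ℂ))) n = 0 := by
    intro n
    unfold fourierCoeff
    simp
  constructor
  · simp only [h, norm_zero]
    exact summable_zero
  · simp only [h, norm_zero, tsum_zero]
    exact le_refl _

theorem wn_sum (h1 : P_walg) (G : ℕ → C(UnitAddCircle, ℂ)) (m : ℕ → ℝ) (h : ∀ j, WN (G j) (m j))
    (n : ℕ) : WN (∑ j ∈ Finset.range n, G j) (∑ j ∈ Finset.range n, m j) := by
  induction n with
  | zero =>
    rw [Finset.sum_range_zero, Finset.sum_range_zero]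
    exact wn_zero
  | succ n ih =>
    rw [Finset.sum_range_succ, Finset.sum_range_succ]
    exact h1.2.1 _ _ _ _ ih (h n)

theorem wn_lip (h2 : P_sob) : ∃ C : ℝ, 0 < C ∧ ∀ (F : C(UnitAddCircle, ℂ)) (m m' : ℝ), 0 ≤ m →
    0 ≤ m' → (∀ t, ‖F t‖ ≤ m) → Lip F m' → WN F (C * (m + m' / 4)) := by
  obtain ⟨C, hC, h⟩ := h2
  refine ⟨C, hC, fun F m m' hm hm' hF hL => ?_⟩
  have h3 := h F 0 (1 / 4) m m' (by norm_num) le_rfl hm hm' (fun t ht => by
    exfalso
    rw [dist_zero_right] at ht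
    have := norm_le_half t
    linarith) hF hL
  have e : C * (m + m' / 4) = C * (m + 1 / 4 * m') := by ring
  rw [e]
  exact h3

theorem wn_pow (h1 : P_walg) {r : C(UnitAddCircle, ℂ)} {ε : ℝ} (hr : WN r ε)
    {F : C(UnitAddCircle, ℂ)} {m : ℝ} (hF : WN F m) (k : ℕ) : WN (r ^ k * F) (ε ^ k * m) := by
  induction k with
  | zero =>
    rw [pow_zero, pow_zero, one_mul, one_mul]
    exact hF
  | succ k ih =>
    rw [pow_succ', pow_succ', mul_assoc, mul_assoc]
    exact h1.1 _ _ _ _ hr ih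

theorem int_cont (F : C(UnitAddCircle, ℂ)) : Integrable (⇑F) (haarAddCircle (T := (1 : ℝ))) :=
  F.continuous.integrable_of_hasCompactSupport (HasCompactSupport.of_compactSpace _)

/-! ### truncation -/

/-- the truncated Fourier series -/
noncomputable def tr (a : C(UnitAddCircle, ℂ)) (N : ℕ) : C(UnitAddCircle, ℂ) :=
  ∑ n ∈ Finset.Icc (-(N : ℤ)) N, fourierCoeff a n • (fourier n : C(UnitAddCircle, ℂ))

theorem coeff_tr (a : C(UnitAddCircle, ℂ)) (N : ℕ) (n : ℤ) :
    fourierCoeff (tr a N) n = if n ∈ Finset.Icc (-(N : ℤ)) N then fourierCoeff a n else 0 := by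
  have e : (⇑(tr a N) : UnitAddCircle → ℂ) = ∑ k ∈ Finset.Icc (-(N : ℤ)) N,
      (fun k : ℤ => (fourierCoeff a k • (⇑(fourier k : C(UnitAddCircle, ℂ))) :
        UnitAddCircle → ℂ)) k := by
    unfold tr
    rw [ContinuousMap.coe_sum]
    rfl
  rw [e, fourierCoeff.sum (Finset.Icc (-(N : ℤ)) N)
    (fun k : ℤ => (fourierCoeff a k • (⇑(fourier k : C(UnitAddCircle, ℂ))) : UnitAddCircle → ℂ))
    (fun k _ => (int_cont (fourierCoeff a k • fourier k))), Finset.sum_apply]
  have h : ∀ k : ℤ, fourierCoeff (fourierCoeff a k • (⇑(fourier k : C(UnitAddCircle, ℂ)))) n =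
      if n = k then fourierCoeff a k else 0 := by
    intro k
    rw [fourierCoeff.const_smul, fourierCoeff_fourier, Pi.single_apply]
    split_ifs <;> simp
  rw [Finset.sum_congr rfl fun k _ => h k, Finset.sum_ite_eq]

theorem coeff_sub_tr (a : C(UnitAddCircle, ℂ)) (N : ℕ) (n : ℤ) :
    fourierCoeff (⇑(a - tr a N)) n =
      if n ∈ Finset.Icc (-(N : ℤ)) N then 0 else fourierCoeff a n := by
  have h1 := fourierCoeff.add (int_cont (a - tr a N)) (int_cont (tr a N))
  have e : (⇑(a - tr a N) + ⇑(tr a N) : UnitAddCircle → ℂ) = ⇑a := by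
    rw [← ContinuousMap.coe_add, sub_add_cancel]
  rw [e] at h1
  have h2 := congrFun h1 n
  rw [Pi.add_apply, coeff_tr] at h2
  split_ifs at h2 ⊢ with h
  · have h3 : fourierCoeff (⇑a) n = fourierCoeff (⇑(a - tr a N)) n + fourierCoeff (⇑a) n := h2
    linear_combination -h3
  · rw [add_zero] at h2
    exact h2.symm

section weight

variable {a : C(UnitAddCircle, ℂ)} {δ M : ℝ}

theorem wn_rest (hδ : 0 < δ)
    (hs : Summable fun n : ℤ => (1 + |(n : ℝ)|) ^ δ * ‖fourierCoeff a n‖)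
    (hM : ∑' n : ℤ, (1 + |(n : ℝ)|) ^ δ * ‖fourierCoeff a n‖ ≤ M) (N : ℕ) :
    WN (a - tr a N) (M / (1 + (N : ℝ)) ^ δ) := by
  have hN : (0 : ℝ) < (1 + (N : ℝ)) ^ δ := Real.rpow_pos_of_pos (by positivity) _
  have hle : ∀ n : ℤ, ‖fourierCoeff (⇑(a - tr a N)) n‖ ≤
      (1 + |(n : ℝ)|) ^ δ * ‖fourierCoeff a n‖ / (1 + (N : ℝ)) ^ δ := by
    intro n
    rw [coeff_sub_tr]
    split_ifs with h
    · rw [norm_zero]
      have : (0 : ℝ) ≤ (1 + |(n : ℝ)|) ^ δ := Real.rpow_nonneg (by positivity) _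
      positivity
    · rw [le_div_iff₀ hN, mul_comm]
      refine mul_le_mul_of_nonneg_right ?_ (norm_nonneg _)
      refine Real.rpow_le_rpow (by positivity) ?_ hδ.le
      have h1 : (N : ℤ) ≤ |n| := by
        rw [Finset.mem_Icc, ← abs_le] at h
        omega
      have h2 : (N : ℝ) ≤ |(n : ℝ)| := by exact_mod_cast h1
      linarith
  have hs' := hs.div_const ((1 + (N : ℝ)) ^ δ)
  refine ⟨Summable.of_nonneg_of_le (fun _ => norm_nonneg _) hle hs', ?_⟩
  refine (Summable.tsum_le_tsum hle (Summable.of_nonneg_of_le (fun _ => norm_nonneg _) hle hs')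
    hs').trans ?_
  rw [tsum_div_const]
  exact div_le_div_of_nonneg_right hM hN.le

theorem tr_lip (hδ : 0 < δ)
    (hs : Summable fun n : ℤ => (1 + |(n : ℝ)|) ^ δ * ‖fourierCoeff a n‖)
    (hM : ∑' n : ℤ, (1 + |(n : ℝ)|) ^ δ * ‖fourierCoeff a n‖ ≤ M) (N : ℕ) :
    Lip (tr a N) (2 * π * N * M) := by
  intro s t
  have e : ∀ x, tr a N x = ∑ n ∈ Finset.Icc (-(N : ℤ)) N, fourierCoeff a n * fourier n x := by
    intro x
    unfold tr
    rw [ContinuousMap.sum_apply]
    rfl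
  rw [e, e, ← Finset.sum_sub_distrib]
  refine (norm_sum_le _ _).trans ?_
  have h1 : ∀ n ∈ Finset.Icc (-(N : ℤ)) N,
      ‖fourierCoeff a n * fourier n s - fourierCoeff a n * fourier n t‖ ≤
        ((1 + |(n : ℝ)|) ^ δ * ‖fourierCoeff a n‖) * (2 * π * N * dist s t) := by
    intro n hn
    rw [← mul_sub, norm_mul]
    have h2 : (1 : ℝ) ≤ (1 + |(n : ℝ)|) ^ δ :=
      Real.one_le_rpow (by linarith [abs_nonneg (n : ℝ)]) hδ.le
    have h3 : |(n : ℝ)| ≤ N := by
      rw [Finset.mem_Icc, ← abs_le] at hn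
      exact_mod_cast hn
    have h4 := fourier_lip n s t
    have h5 : 2 * π * |(n : ℝ)| * dist s t ≤ 2 * π * N * dist s t := by
      refine mul_le_mul_of_nonneg_right ?_ dist_nonneg
      exact mul_le_mul_of_nonneg_left h3 (by positivity)
    refine mul_le_mul ?_ (h4.trans h5) (norm_nonneg _) (by positivity)
    have h6 := mul_le_mul_of_nonneg_right h2 (norm_nonneg (fourierCoeff a n))
    linarith
  refine (Finset.sum_le_sum h1).trans ?_
  rw [← Finset.sum_mul]
  have h7 : ∑ n ∈ Finset.Icc (-(N : ℤ)) N, (1 + |(n : ℝ)|) ^ δ * ‖fourierCoeff a n‖ ≤ M := by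
    refine (hs.sum_le_tsum _ fun n _ => ?_).trans hM
    have : (0 : ℝ) ≤ (1 + |(n : ℝ)|) ^ δ := Real.rpow_nonneg (by positivity) _
    positivity
  calc (∑ n ∈ Finset.Icc (-(N : ℤ)) N, (1 + |(n : ℝ)|) ^ δ * ‖fourierCoeff a n‖) *
        (2 * π * N * dist s t) ≤ M * (2 * π * N * dist s t) :=
        mul_le_mul_of_nonneg_right h7 (by positivity)
    _ = 2 * π * N * M * dist s t := by ring

end weight

/-! ### the main estimate -/

theorem geo (n : ℕ) : ∑ j ∈ Finset.range n, (1 / 2 : ℝ) ^ j ≤ 2 := by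
  have h := Summable.sum_le_tsum (f := fun j : ℕ => (1 / 2 : ℝ) ^ j) (Finset.range n)
    (fun j _ => by positivity) summable_geometric_two
  rw [tsum_geometric_two] at h
  exact h

/-- the coefficients of the logarithm -/
noncomputable def cf (j : ℕ) : ℂ := (-1) ^ (j + 1) / j

theorem norm_cf (j : ℕ) : ‖cf j‖ = 1 / j := by
  unfold cf
  rw [norm_div, norm_pow, norm_neg, norm_one, one_pow, Complex.norm_natCast]

theorem main_est (h1 : P_walg) {C0 : ℝ} (hC0 : 0 < C0)
    (hC : ∀ (F : C(UnitAddCircle, ℂ)) (m m' : ℝ), 0 ≤ m → 0 ≤ m' → (∀ t, ‖F t‖ ≤ m) →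
      Lip F m' → WN F (C0 * (m + m' / 4)))
    {a g p : C(UnitAddCircle, ℂ)} {z : ℂ} {d ε L : ℝ} (hd : 0 < d)
    (had : ∀ t, d ≤ ‖a t - z‖) (hg : ∀ t, a t - z = Complex.exp (g t)) (hL0 : 0 ≤ L)
    (hr : WN (a - p) ε) (hε : ε ≤ d / 4) (hp : Lip p L) :
    WN g (C0 * (‖g‖ + 3 + 2 / d * L)) := by
  obtain ⟨-, hadd, hsmul, hsup, hlim⟩ := id h1
  set R : ℝ := 2 / d with hRd
  have hR0 : 0 < R := by positivity
  set K : ℝ := R * L / 4 with hK
  have hK0 : 0 ≤ K := by positivity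
  have hε0 : 0 ≤ ε := (norm_nonneg _).trans (hsup _ _ hr)
  have hεR : ε * R ≤ 1 / 2 := by
    have : ε * R ≤ d / 4 * R := mul_le_mul_of_nonneg_right hε hR0.le
    have e : d / 4 * R = 1 / 2 := by
      rw [hRd]; field_simp; norm_num
    linarith
  have hrt : ∀ t, ‖a t - p t‖ ≤ ε := fun t =>
    ((a - p).norm_coe_le_norm t).trans (hsup _ _ hr)
  -- the function `b = p - z`
  set b : C(UnitAddCircle, ℂ) := p - ContinuousMap.const _ z with hbdef
  have hbt : ∀ t, b t = p t - z := fun t => rfl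
  have hbn : ∀ t, d / 2 ≤ ‖b t‖ := by
    intro t
    have h2 : a t - z = b t + (a t - p t) := by rw [hbt]; ring
    have h3 := had t
    rw [h2] at h3
    have h4 := norm_add_le (b t) (a t - p t)
    have h5 := hrt t
    linarith
  have hb0 : ∀ t, b t ≠ 0 := fun t h0 => by
    have := hbn t
    rw [h0, norm_zero] at this
    linarith
  have hbR : ∀ t, ‖(b t)⁻¹‖ ≤ R := by
    intro t
    rw [norm_inv, hRd]
    rw [inv_le_comm₀ (norm_pos_iff.2 (hb0 t)) (by positivity), inv_div]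
    exact hbn t
  have hbL : Lip b L := by
    intro s t
    have e : b s - b t = p s - p t := by rw [hbt, hbt]; ring
    rw [e]
    exact hp s t
  set f := inv' b hb0 with hf
  have hft : ∀ t, f t = (b t)⁻¹ := fun t => rfl
  have hfL := inv_lip hb0 hbR hbL
  -- powers of the inverse
  have hpow : ∀ k : ℕ, WN (f ^ k) (C0 * (R ^ k + k * (R ^ (k + 1) * L) / 4)) := by
    intro k
    refine hC _ _ _ (by positivity) (by positivity) (fun t => ?_) ?_
    · rw [ContinuousMap.pow_apply, norm_pow]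
      exact pow_le_pow_left₀ (norm_nonneg _) (hbR t) _
    · intro s t
      rw [ContinuousMap.pow_apply, ContinuousMap.pow_apply]
      cases k with
      | zero => simp
      | succ k =>
        refine (pow_sub_le (hbR s) (hbR t) k).trans ?_
        have h2 := mul_le_mul_of_nonneg_left (hfL s t)
          (by positivity : (0 : ℝ) ≤ (k + 1) * R ^ k)
        refine h2.trans (le_of_eq ?_)
        push_cast
        ring
  set u : C(UnitAddCircle, ℂ) := (a - p) * f with hu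
  have hut : ∀ t, u t = (a t - p t) * (b t)⁻¹ := fun t => rfl
  have hun : ∀ t, ‖u t‖ ≤ 1 / 2 := by
    intro t
    rw [hut, norm_mul]
    exact (mul_le_mul (hrt t) (hbR t) (norm_nonneg _) hε0).trans hεR
  have huk : ∀ k : ℕ, WN (u ^ k) (C0 * ((1 / 2) ^ k * (1 + k * K))) := by
    intro k
    rw [hu, mul_pow]
    refine wn_mono (wn_pow h1 hr (hpow k) k) ?_
    have e : ε ^ k * (C0 * (R ^ k + k * (R ^ (k + 1) * L) / 4)) =
        C0 * ((ε * R) ^ k * (1 + k * K)) := by
      rw [hK, mul_pow, pow_succ]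
      ring
    rw [e]
    refine mul_le_mul_of_nonneg_left ?_ hC0.le
    refine mul_le_mul_of_nonneg_right ?_ (by positivity)
    exact pow_le_pow_left₀ (by positivity) hεR k
  -- partial sums
  have hck : ∀ j : ℕ, WN (cf j • u ^ j) (C0 * (1 + K) * (1 / 2) ^ j) := by
    intro j
    refine wn_mono (hsmul _ _ (cf j) (huk j)) ?_
    rw [norm_cf]
    have h2 : 1 / (j : ℝ) * (1 + j * K) ≤ 1 + K := by
      rcases Nat.eq_zero_or_pos j with hj | hj
      · subst hj
        simp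
        linarith
      · have hj' : (1 : ℝ) ≤ j := by exact_mod_cast hj
        have hj0 : (0 : ℝ) < j := by linarith
        have e : 1 / (j : ℝ) * (1 + j * K) = 1 / j + K := by
          field_simp
        rw [e]
        have : 1 / (j : ℝ) ≤ 1 := by
          rw [div_le_one hj0]
          exact hj'
        linarith
    have h3 : 1 / (j : ℝ) * (C0 * ((1 / 2) ^ j * (1 + j * K))) =
        (C0 * (1 / 2) ^ j) * (1 / (j : ℝ) * (1 + j * K)) := by ring
    rw [h3]
    have h4 := mul_le_mul_of_nonneg_left h2 (by positivity : (0 : ℝ) ≤ C0 * (1 / 2) ^ j)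
    refine h4.trans (le_of_eq (by ring))
  have hT : ∀ n : ℕ, WN (∑ j ∈ Finset.range (n + 1), cf j • u ^ j) (2 * (C0 * (1 + K))) := by
    intro n
    refine wn_mono (wn_sum h1 _ _ hck (n + 1)) ?_
    rw [← Finset.mul_sum]
    have h2 := mul_le_mul_of_nonneg_left (geo (n + 1)) (by positivity : (0 : ℝ) ≤ C0 * (1 + K))
    linarith
  -- the logarithm
  have hslit : ∀ t, 1 + u t ∈ Complex.slitPlane := fun t =>
    Complex.mem_slitPlane_of_norm_lt_one (lt_of_le_of_lt (hun t) (by norm_num))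
  let ℓ : C(UnitAddCircle, ℂ) :=
    ⟨fun t => Complex.log (1 + u t), by
      rw [continuous_iff_continuousAt]
      intro t
      exact ContinuousAt.clog ((continuous_const.add u.continuous).continuousAt) (hslit t)⟩
  have hℓt : ∀ t, ℓ t = Complex.log (1 + u t) := fun t => rfl
  have hTt : ∀ (n : ℕ) (t : UnitAddCircle), (∑ j ∈ Finset.range (n + 1), cf j • u ^ j) t =
      Complex.logTaylor (n + 1) (u t) := by
    intro n t
    rw [ContinuousMap.sum_apply]
    unfold Complex.logTaylor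
    refine Finset.sum_congr rfl fun j _ => ?_
    rw [ContinuousMap.smul_apply, ContinuousMap.pow_apply, smul_eq_mul]
    unfold cf
    ring
  have hlimT : Filter.Tendsto (fun n : ℕ => ∑ j ∈ Finset.range (n + 1), cf j • u ^ j)
      Filter.atTop (nhds ℓ) := by
    rw [tendsto_iff_dist_tendsto_zero]
    have hbd : ∀ n : ℕ, dist (∑ j ∈ Finset.range (n + 1), cf j • u ^ j) ℓ ≤ (1 / 2 : ℝ) ^ n := by
      intro n
      rw [ContinuousMap.dist_le (by positivity)]
      intro t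
      rw [hTt, hℓt, dist_comm, dist_eq_norm]
      have h2 := Complex.norm_log_sub_logTaylor_le n (z := u t)
        (lt_of_le_of_lt (hun t) (by norm_num))
      refine h2.trans ?_
      have h3 : ‖u t‖ ^ (n + 1) ≤ (1 / 2 : ℝ) ^ (n + 1) :=
        pow_le_pow_left₀ (norm_nonneg _) (hun t) _
      have h4 : (1 - ‖u t‖)⁻¹ ≤ 2 := by
        rw [inv_le_comm₀ (by linarith [hun t]) (by norm_num)]
        linarith [hun t]
      have h5 : ‖u t‖ ^ (n + 1) * (1 - ‖u t‖)⁻¹ ≤ (1 / 2 : ℝ) ^ (n + 1) * 2 :=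
        mul_le_mul h3 h4 (inv_nonneg.2 (by linarith [hun t])) (by positivity)
      have h6 : ‖u t‖ ^ (n + 1) * (1 - ‖u t‖)⁻¹ / (n + 1) ≤ ‖u t‖ ^ (n + 1) * (1 - ‖u t‖)⁻¹ := by
        apply div_le_self
        · exact mul_nonneg (by positivity) (inv_nonneg.2 (by linarith [hun t]))
        · linarith [(Nat.cast_nonneg n : (0 : ℝ) ≤ n)]
      refine h6.trans (h5.trans (le_of_eq ?_))
      rw [pow_succ]
      ring
    exact squeeze_zero (fun _ => dist_nonneg) hbd
      (tendsto_pow_atTop_nhds_zero_of_lt_one (by norm_num) (by norm_num))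
  have hℓW : WN ℓ (2 * (C0 * (1 + K))) := hlim _ _ _ hT hlimT
  have hℓn : ∀ t, ‖ℓ t‖ ≤ 1 := by
    intro t
    rw [hℓt]
    refine (Complex.norm_log_one_add_half_le_self (hun t)).trans ?_
    have := hun t
    linarith
  -- the logarithm of `b`
  set q : C(UnitAddCircle, ℂ) := g - ℓ with hq
  have hqt : ∀ t, Complex.exp (q t) = b t := by
    intro t
    have e : q t = g t - ℓ t := rfl
    have h0 : 1 + u t ≠ 0 := Complex.slitPlane_ne_zero (hslit t)
    have hbb := hb0 t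
    rw [e, Complex.exp_sub, ← hg t, hℓt, Complex.exp_log h0, div_eq_iff h0, hut]
    have e2 : a t - z = b t + (a t - p t) := by rw [hbt]; ring
    rw [e2]
    field_simp
  have hqL := log_lip hqt hbR hL0 hbL
  have hqn : ∀ t, ‖q t‖ ≤ ‖g‖ + 1 := by
    intro t
    have e : q t = g t - ℓ t := rfl
    rw [e]
    exact (norm_sub_le _ _).trans (add_le_add (g.norm_coe_le_norm t) (hℓn t))
  have hqW := hC q (‖g‖ + 1) (3 / 2 * (R * L)) (by positivity) (by positivity) hqn hqL
  have hgq : g = q + ℓ := by rw [hq, sub_add_cancel]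
  rw [hgq]
  refine wn_mono (hadd _ _ _ _ hqW hℓW) ?_
  rw [← hgq]
  have e : C0 * (‖g‖ + 1 + 3 / 2 * (R * L) / 4) + 2 * (C0 * (1 + K)) =
      C0 * (‖g‖ + 3 + 7 / 8 * (R * L)) := by
    rw [hK]; ring
  rw [e]
  refine mul_le_mul_of_nonneg_left ?_ hC0.le
  have : 0 ≤ R * L := by positivity
  linarith

theorem p_wlog (h1 : P_walg) (h2 : P_sob) : P_wlog := by
  intro δ M hδ hδ1 hM
  obtain ⟨C0, hC0, hC⟩ := wn_lip h2
  set X : ℝ := 4 * π * M * ((4 * M) ^ (1 / δ) + 1) with hX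
  have hX0 : 0 < X := by
    have := Real.pi_pos
    have h3 : (0 : ℝ) < (4 * M) ^ (1 / δ) := Real.rpow_pos_of_pos (by positivity) _
    positivity
  refine ⟨C0 * (3 + X), 1 + 1 / δ, by positivity, by positivity, ?_⟩
  intro a g z d hs hsM hd hd1 had hg
  set N : ℕ := ⌈(4 * M / d) ^ (1 / δ)⌉₊ with hN
  have hN1 : (4 * M / d) ^ (1 / δ) ≤ N := Nat.le_ceil _
  have hN2 : (N : ℝ) ≤ (4 * M / d) ^ (1 / δ) + 1 :=
    (Nat.ceil_lt_add_one (Real.rpow_nonneg (by positivity) _)).le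
  have hε : M / (1 + (N : ℝ)) ^ δ ≤ d / 4 := by
    have h3 : 4 * M / d ≤ (1 + (N : ℝ)) ^ δ := by
      have h4 : ((4 * M / d) ^ (1 / δ)) ^ δ ≤ (1 + (N : ℝ)) ^ δ := by
        refine Real.rpow_le_rpow (Real.rpow_nonneg (by positivity) _) (by linarith) hδ.le
      rwa [← Real.rpow_mul (by positivity), one_div_mul_cancel hδ.ne', Real.rpow_one] at h4
    have h5 : (0 : ℝ) < (1 + (N : ℝ)) ^ δ := Real.rpow_pos_of_pos (by positivity) _
    rw [div_le_iff₀ hd] at h3
    rw [div_le_iff₀ h5]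
    nlinarith
  have hmain := main_est h1 hC0 hC hd had hg (p := tr a N) (L := 2 * π * N * M)
    (by have := Real.pi_pos; positivity) (wn_rest hδ hs hsM N) hε (tr_lip hδ hs hsM N)
  refine wn_mono hmain ?_
  -- numerics
  have hdD : d ^ (-(1 + 1 / δ)) = d ^ (-(1 / δ)) * d⁻¹ := by
    rw [neg_add, add_comm, Real.rpow_add hd, Real.rpow_neg_one]
  have hD1 : 1 ≤ d ^ (-(1 / δ)) :=
    Real.one_le_rpow_of_pos_of_le_one_of_nonpos hd hd1 (by
      have : 0 < 1 / δ := by positivity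
      linarith)
  have hdi : 1 ≤ d⁻¹ := (one_le_inv₀ hd).2 hd1
  set D : ℝ := d ^ (-(1 + 1 / δ)) with hD
  have hDge : 1 ≤ D := by
    rw [hdD]
    have := mul_le_mul hD1 hdi zero_le_one (by linarith)
    linarith
  have hNle : (N : ℝ) ≤ ((4 * M) ^ (1 / δ) + 1) * d ^ (-(1 / δ)) := by
    have e : (4 * M / d) ^ (1 / δ) = (4 * M) ^ (1 / δ) * d ^ (-(1 / δ)) := by
      rw [Real.div_rpow (by positivity) hd.le, Real.rpow_neg hd.le, div_eq_mul_inv]
    rw [e] at hN2
    linarith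
  have hRL : 2 / d * (2 * π * N * M) ≤ X * D := by
    have e : 2 / d * (2 * π * N * M) = (4 * π * M * d⁻¹) * N := by
      rw [div_eq_mul_inv]; ring
    rw [e]
    have hpi := Real.pi_pos
    have h3 := mul_le_mul_of_nonneg_left hNle (by positivity : (0 : ℝ) ≤ 4 * π * M * d⁻¹)
    refine h3.trans (le_of_eq ?_)
    rw [hX, hdD]
    ring
  have hgn : 0 ≤ ‖g‖ := norm_nonneg g
  have e : C0 * (3 + X) * D * (1 + ‖g‖) = C0 * ((3 + X) * D * (1 + ‖g‖)) := by ring
  rw [e]
  refine mul_le_mul_of_nonneg_left ?_ hC0.le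
  have h4 : 0 ≤ (X * D) * ‖g‖ := by positivity
  have h5 : ‖g‖ ≤ D * ‖g‖ := by
    have := mul_le_mul_of_nonneg_right hDge hgn
    linarith
  nlinarith

end Pool.Agent.H738.LL
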